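import Pool.Agent.Helper98.GX.St

/-!
# GX, module JEX: the minimal order of the Jacobians exists (helper17)
-/

set_option autoImplicit false

open scoped BigOperators

namespace Pool.Agent.Helper17.GX

open Pool.Agent.Helper98.GX
open Pool.Agent.Helper53.CX (DivVal LinSys IsNefCartier)

variable {K : Type} [Field K] [Algebra ℂ K]

private theorem ord_one (v : DivVal K) : v.ord 1 = 0 := by
  have h := v.ord_mul 1 1 one_ne_zero one_ne_zero
  rw [mul_one] at h
  omega

private theorem ord_neg_one (v : DivVal K) : v.ord (-1) = 0 := by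
  have h := v.ord_mul (-1) (-1) (neg_ne_zero.2 one_ne_zero) (neg_ne_zero.2 one_ne_zero)
  rw [neg_mul_neg, mul_one, ord_one] at h
  omega

private theorem ord_neg (v : DivVal K) (f : K) : v.ord (-f) = v.ord f := by
  by_cases hf : f = 0
  · rw [hf, neg_zero]
  · have h := v.ord_mul (-1) f (neg_ne_zero.2 one_ne_zero) hf
    rw [neg_one_mul, ord_neg_one, zero_add] at h
    exact h

private theorem ord_inv (v : DivVal K) (f : K) (hf : f ≠ 0) : v.ord f⁻¹ = - v.ord f := by
  have h := v.ord_mul f f⁻¹ hf (inv_ne_zero hf)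
  rw [mul_inv_cancel₀ hf, ord_one] at h
  omega

/-- zero or of order at least `k` -/
private def Ge (v : DivVal K) (k : ℤ) (g : K) : Prop := g = 0 ∨ k ≤ v.ord g

private theorem Ge_mono {v : DivVal K} {k l : ℤ} {g : K} (h : Ge v k g) (hl : l ≤ k) :
    Ge v l g := by
  rcases h with h | h
  · exact Or.inl h
  · exact Or.inr (hl.trans h)

private theorem Ge_add {v : DivVal K} {k : ℤ} {f g : K} (hf : Ge v k f) (hg : Ge v k g) :
    Ge v k (f + g) := by
  by_cases h0 : f = 0
  · rw [h0, zero_add]; exact hg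
  by_cases h1 : g = 0
  · rw [h1, add_zero]; exact hf
  by_cases h2 : f + g = 0
  · exact Or.inl h2
  · rcases hf with hf | hf
    · exact absurd hf h0
    rcases hg with hg | hg
    · exact absurd hg h1
    exact Or.inr ((le_min hf hg).trans (v.ord_add f g h0 h1 h2))

private theorem Ge_mul {v : DivVal K} {k l : ℤ} {f g : K} (hf : Ge v k f) (hg : Ge v l g) :
    Ge v (k + l) (f * g) := by
  by_cases h0 : f = 0
  · exact Or.inl (by rw [h0, zero_mul])
  by_cases h1 : g = 0
  · exact Or.inl (by rw [h1, mul_zero])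
  rcases hf with hf | hf
  · exact absurd hf h0
  rcases hg with hg | hg
  · exact absurd hg h1
  right
  rw [v.ord_mul f g h0 h1]
  omega

private theorem Ge_neg {v : DivVal K} {k : ℤ} {f : K} (hf : Ge v k f) : Ge v k (-f) := by
  rcases hf with hf | hf
  · exact Or.inl (by rw [hf, neg_zero])
  · exact Or.inr (by rw [ord_neg]; exact hf)

private theorem Ge_sum {v : DivVal K} {k : ℤ} {ι : Type} (s : Finset ι) (f : ι → K)
    (hf : ∀ i ∈ s, Ge v k (f i)) : Ge v k (∑ i ∈ s, f i) := by
  classical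
  induction s using Finset.induction_on with
  | empty => left; simp
  | insert a s ha ih =>
    rw [Finset.sum_insert ha]
    exact Ge_add (hf a (Finset.mem_insert_self a s))
      (ih (fun i hi => hf i (Finset.mem_insert_of_mem hi)))

private theorem Ge_prod {v : DivVal K} {k : ℤ} {ι : Type} (s : Finset ι) (f : ι → K)
    (hf : ∀ i ∈ s, Ge v k (f i)) : Ge v (s.card * k) (∏ i ∈ s, f i) := by
  classical
  induction s using Finset.induction_on with
  | empty =>
    right
    simp [ord_one]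
  | insert a s ha ih =>
    rw [Finset.prod_insert ha, Finset.card_insert_of_notMem ha]
    have h := Ge_mul (hf a (Finset.mem_insert_self a s))
      (ih (fun i hi => hf i (Finset.mem_insert_of_mem hi)))
    have e : ((s.card + 1 : ℕ) : ℤ) * k = k + s.card * k := by push_cast; ring
    rw [e]
    exact h

private theorem Ge_sign {v : DivVal K} {k : ℤ} (u : ℤˣ) (f : K) (hf : Ge v k f) :
    Ge v k (u • f) := by
  rcases Int.units_eq_one_or u with h | h
  · rw [h, one_smul]; exact hf
  · rw [h]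
    have e : ((-1 : ℤˣ) • f) = -f := by
      rw [Units.smul_def]
      simp
    rw [e]
    exact Ge_neg hf

/-- a derivation lowers the order by a bounded amount -/
private theorem der_bound (v : DivVal K) (D : Derivation ℂ K K) :
    ∃ C : ℤ, ∀ f : K, f ≠ 0 → D f ≠ 0 → v.ord f - C ≤ v.ord (D f) := by
  have Dmul : ∀ f g : K, D (f * g) = f * D g + g * D f := fun f g => by
    rw [D.leibniz]; rfl
  have Done : D 1 = 0 := D.map_one_eq_zero
  obtain ⟨R, ⟨S, hS⟩, hR0, hR1⟩ := v.exists_model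
  obtain ⟨t, ht0, ht1⟩ := v.exists_one
  set C0 : ℤ := ∑ r ∈ S, |v.ord (D r)| with hC0
  have hS1 : ∀ r ∈ S, Ge v (-C0) (D r) := by
    intro r hr
    right
    have h1 : |v.ord (D r)| ≤ C0 :=
      Finset.single_le_sum (f := fun r => |v.ord (D r)|) (fun i _ => abs_nonneg _) hr
    have h2 := neg_abs_le (v.ord (D r))
    omega
  have hR2 : ∀ f ∈ R, Ge v 0 f := by
    intro f hf
    by_cases h : f = 0
    · exact Or.inl h
    · exact Or.inr (hR0 f hf h)
  have hR3 : ∀ f ∈ R, Ge v (-C0) (D f) := by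
    intro f hf
    rw [← hS] at hf
    induction hf using Algebra.adjoin_induction with
    | mem r hr => exact hS1 r hr
    | algebraMap c => exact Or.inl (D.map_algebraMap c)
    | add f g _ _ h1 h2 => rw [map_add]; exact Ge_add h1 h2
    | mul f g hf hg h1 h2 =>
      rw [hS] at hf hg
      rw [Dmul]
      refine Ge_add ?_ ?_
      · have := Ge_mul (hR2 f hf) h2
        rwa [zero_add] at this
      · have := Ge_mul (hR2 g hg) h1
        rwa [zero_add] at this
  have hV : ∀ f : K, f ≠ 0 → 0 ≤ v.ord f → Ge v (-C0) (D f) := by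
    intro f hf0 hf1
    obtain ⟨a, ha, b, hb, hb0, hb1, hab⟩ := hR1 f hf0 hf1
    have h1 : b * D f = D a + -(f * D b) := by
      rw [← hab, Dmul]; ring
    have h2 : Ge v (-C0) (b * D f) := by
      rw [h1]
      refine Ge_add (hR3 a ha) (Ge_neg ?_)
      have := Ge_mul (Or.inr hf1 : Ge v 0 f) (hR3 b hb)
      rwa [zero_add] at this
    rcases h2 with h2 | h2
    · rcases mul_eq_zero.1 h2 with h3 | h3
      · exact absurd h3 hb0
      · exact Or.inl h3
    · by_cases h3 : D f = 0
      · exact Or.inl h3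
      · right
        rw [v.ord_mul _ _ hb0 h3, hb1, zero_add] at h2
        exact h2
  have ht : ∀ k : ℕ, v.ord (t ^ k) = k ∧ Ge v ((k : ℤ) - 1 - C0) (D (t ^ k)) := by
    intro k
    induction k with
    | zero =>
      rw [pow_zero]
      exact ⟨by rw [ord_one]; rfl, Or.inl Done⟩
    | succ k ih =>
      rw [pow_succ]
      refine ⟨?_, ?_⟩
      · rw [v.ord_mul _ _ (pow_ne_zero _ ht0) ht0, ih.1, ht1]; push_cast; ring
      · rw [Dmul]
        refine Ge_add ?_ ?_
        · refine Ge_mono (Ge_mul (Or.inr le_rfl : Ge v (v.ord (t ^ k)) (t ^ k))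
            (hV t ht0 (by omega))) ?_
          rw [ih.1]; push_cast; omega
        · refine Ge_mono (Ge_mul (Or.inr le_rfl : Ge v (v.ord t) t) ih.2) ?_
          rw [ht1]; push_cast; omega
  have hP : ∀ f : K, f ≠ 0 → 0 ≤ v.ord f → Ge v (v.ord f - 1 - C0) (D f) := by
    intro f hf0 hf1
    obtain ⟨k, hk⟩ := Int.eq_ofNat_of_zero_le hf1
    have hk' : v.ord f = (k : ℤ) := hk
    have htk : t ^ k ≠ 0 := pow_ne_zero _ ht0
    set u : K := f * (t ^ k)⁻¹ with hu
    have hu0 : u ≠ 0 := mul_ne_zero hf0 (inv_ne_zero htk)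
    have hu1 : v.ord u = 0 := by
      rw [hu, v.ord_mul _ _ hf0 (inv_ne_zero htk), ord_inv v _ htk, (ht k).1, hk']; omega
    have hfu : f = t ^ k * u := by
      rw [hu, mul_comm f, ← mul_assoc, mul_inv_cancel₀ htk, one_mul]
    have h3 : D f = t ^ k * D u + u * D (t ^ k) := by
      conv_lhs => rw [hfu]
      rw [Dmul]
    rw [h3]
    refine Ge_add ?_ ?_
    · refine Ge_mono (Ge_mul (Or.inr le_rfl : Ge v (v.ord (t ^ k)) (t ^ k))
        (hV u hu0 hu1.ge)) ?_
      rw [(ht k).1, hk']; omega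
    · refine Ge_mono (Ge_mul (Or.inr le_rfl : Ge v (v.ord u) u) (ht k).2) ?_
      rw [hu1, hk']; omega
  refine ⟨C0 + 1, fun f hf0 hf1 => ?_⟩
  by_cases hs : 0 ≤ v.ord f
  · rcases hP f hf0 hs with h | h
    · exact absurd h hf1
    · omega
  · have hi : v.ord f⁻¹ = - v.ord f := ord_inv v f hf0
    have hg := hP f⁻¹ (inv_ne_zero hf0) (by omega)
    have h1 : D f = -(f * f * D f⁻¹) := by
      have h2 := Dmul f f⁻¹
      rw [mul_inv_cancel₀ hf0, Done] at h2
      have h3 : f * (f * D f⁻¹ + f⁻¹ * D f) = 0 := by rw [← h2, mul_zero]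
      rw [mul_add, ← mul_assoc f f⁻¹, mul_inv_cancel₀ hf0, one_mul, ← mul_assoc] at h3
      exact eq_neg_of_add_eq_zero_right h3
    have h4 : Ge v (v.ord f - 1 - C0) (D f) := by
      rw [h1]
      refine Ge_neg (Ge_mono (Ge_mul (Ge_mul
        (Or.inr le_rfl : Ge v (v.ord f) f) (Or.inr le_rfl : Ge v (v.ord f) f)) hg) ?_)
      rw [hi]; omega
    rcases h4 with h | h
    · exact absurd h hf1
    · omega

private theorem z_ne {n : ℕ} (L : LogCoord K n) (i : Fin n) : L.z i ≠ 0 :=
  L.basis.1.ne_zero i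

private theorem theta_inv {n : ℕ} (L : LogCoord K n) (j i : Fin n) :
    L.θ j ((L.z i)⁻¹) = if i = j then -(L.z i)⁻¹ else 0 := by
  have hx := z_ne L i
  have h : L.θ j (L.z i * (L.z i)⁻¹) = L.z i * L.θ j (L.z i)⁻¹ + (L.z i)⁻¹ * L.θ j (L.z i) := by
    rw [(L.θ j).leibniz]; rfl
  rw [mul_inv_cancel₀ hx, (L.θ j).map_one_eq_zero, L.theta_z] at h
  by_cases hij : i = j
  · rw [if_pos hij] at h ⊢
    rw [inv_mul_cancel₀ hx] at h
    have h2 : L.z i * L.θ j ((L.z i)⁻¹) = -1 := by
      linear_combination -h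
    apply mul_left_cancel₀ hx
    rw [h2, mul_neg, mul_inv_cancel₀ hx]
  · rw [if_neg hij] at h ⊢
    rw [mul_zero, add_zero] at h
    exact (mul_eq_zero.mp h.symm).resolve_left hx

private theorem jac_bdd {n : ℕ} (L : LogCoord K n) (v : DivVal K) :
    ∃ b : ℤ, ∀ f : Fin n → K, (∀ i, 0 ≤ v.ord (f i)) → jac L f ≠ 0 → b ≤ v.ord (jac L f) := by
  choose C hC using fun j => der_bound v (L.θ j)
  set D : ℤ := ∑ j, |C j| with hD
  have hCD : ∀ j, C j ≤ D := fun j => le_trans (le_abs_self _)
    (Finset.single_le_sum (f := fun j => |C j|) (fun i _ => abs_nonneg _) (Finset.mem_univ j))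
  refine ⟨(Finset.univ : Finset (Fin n)).card * (-D), fun f hf hne => ?_⟩
  have hent : ∀ i j, Ge v (-D) (L.θ j (f i)) := by
    intro i j
    by_cases h0 : L.θ j (f i) = 0
    · exact Or.inl h0
    have hfi : f i ≠ 0 := by
      intro h
      rw [h, map_zero] at h0
      exact h0 rfl
    right
    have h1 := hC j (f i) hfi h0
    have h2 := hf i
    have h3 := hCD j
    omega
  have hdet : Ge v ((Finset.univ : Finset (Fin n)).card * (-D)) (jac L f) := by
    rw [jac, Matrix.det_apply]
    apply Ge_sum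
    intro σ _
    apply Ge_sign
    apply Ge_prod
    intro i _
    exact hent (σ i) i
  rcases hdet with h | h
  · exact absurd h hne
  · exact h

private theorem jac_nonempty {n : ℕ} (L : LogCoord K n) (v : DivVal K) :
    ∃ f : Fin n → K, (∀ i, 0 ≤ v.ord (f i)) ∧ jac L f ≠ 0 := by
  classical
  set f : Fin n → K := fun i => if 0 ≤ v.ord (L.z i) then L.z i else (L.z i)⁻¹ with hf
  refine ⟨f, fun i => ?_, ?_⟩
  · by_cases h : 0 ≤ v.ord (L.z i)
    · simp only [hf, if_pos h]; exact h
    · simp only [hf, if_neg h]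
      rw [ord_inv v _ (z_ne L i)]
      omega
  · have hM : (Matrix.of fun i j => L.θ j (f i)) = Matrix.diagonal
        (fun i => if 0 ≤ v.ord (L.z i) then L.z i else -(L.z i)⁻¹) := by
      ext i j
      rw [Matrix.of_apply, Matrix.diagonal_apply]
      by_cases h : 0 ≤ v.ord (L.z i)
      · simp only [hf, if_pos h]
        rw [L.theta_z]
      · simp only [hf, if_neg h]
        rw [theta_inv]
    rw [jac, hM, Matrix.det_diagonal]
    rw [Finset.prod_ne_zero_iff]
    intro i _
    by_cases h : 0 ≤ v.ord (L.z i)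
    · rw [if_pos h]; exact z_ne L i
    · rw [if_neg h]; exact neg_ne_zero.mpr (inv_ne_zero (z_ne L i))

theorem hJEX : StJEX := by
  intro K _ _ n L v
  obtain ⟨b, hb⟩ := jac_bdd L v
  obtain ⟨f0, hf0, hj0⟩ := jac_nonempty L v
  obtain ⟨e, ⟨f, hf1, hf2, hf3⟩, hmin⟩ := Int.exists_least_of_bdd
    (P := fun z => ∃ f : Fin n → K, (∀ i, 0 ≤ v.ord (f i)) ∧ jac L f ≠ 0 ∧ v.ord (jac L f) = z)
    ⟨b, by
      rintro z ⟨f, h1, h2, h3⟩
      rw [← h3]
      exact hb f h1 h2⟩
    ⟨v.ord (jac L f0), f0, hf0, hj0, rfl⟩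
  refine ⟨e, fun g hg hgj => hmin _ ⟨g, hg, hgj, rfl⟩, f, hf1, hf2, hf3⟩

end Pool.Agent.Helper17.GX
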